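import Pool.Agent.H29.SPL.MengerDualProof

/-!
# Seymour's conjecture on Menger duals of Mengerian set systems

We exhibit a Mengerian set system `F` with eight blocks on seven points which does not contain
`Q` as a minor and whose Menger dual does not have the Menger property.
-/

namespace Pool.Agent.Results.MP_f18e63_co.MengerDual

open Finset

/-- **Seymour's 1977 conjecture is false**: there is a set system on seven points, no block of
which contains another, which is Mengerian and does not contain `Q` as a minor, and whose Menger
dual does not have the Menger property. -/
theorem result : ∃ F : SetSystem (Fin 7),
    (∀ B ∈ F.blocks, ∀ C ∈ F.blocks, B ⊆ C → B = C) ∧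
    F.Mengerian ∧ ¬ ContainsQ F ∧ ¬ F.dual.MengerProperty :=
  result_proof

end Pool.Agent.Results.MP_f18e63_co.MengerDual
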